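import Mathlib
import Pool.Agent.KS6_47.Mzf.C

/-!
# MP_e23efd_co, Q1: all long `m`-zero free sequences over `ZMod q` are constant

`q = p ^ r`, `m = p ^ s`. The maximal length of an `m`-zero free sequence is `m q - 1`. All
`m`-zero free sequences of length larger than `m (q - 1)` (not only those of maximal length) are
constant, and there are nonconstant ones of length `m (q - 1) - 1`.
-/

set_option autoImplicit false

namespace Pool.Agent.Results.MP_e23efd_co.LongZeroFree

/-- `S` is `m`-zero free: the elementary symmetric sum of degree `m` of every subsequence of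
length at least `m` is not zero. -/
def ZeroFree {n : ℕ} (m : ℕ) (S : Multiset (ZMod n)) : Prop :=
  ∀ T : Multiset (ZMod n), T ≤ S → m ≤ T.card → T.esymm m ≠ 0

/-- The lengths `L` covered by the classification: `L > m (q - 1)`, and also `L = m (q - 1)` if
`m = 1` or `p = 2`. -/
def LongEnough (p r s L : ℕ) : Prop :=
  p ^ s * (p ^ r - 1) < L ∨ (p ^ s * (p ^ r - 1) = L ∧ (s = 0 ∨ p = 2))

/-- **Main theorem**, for `q = p ^ r`, `m = p ^ s`, `r ≥ 1`, `s ≥ 0`.

(1) Every `m`-zero free sequence of length `m q - 1` over `ℤ/qℤ` consists of `m q - 1` copies of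
one element, a unit, which generates the additive group.

(2) For all lengths `L > m (q - 1)` (and for `L = m (q - 1)` if `m = 1` or `p = 2`): a sequence of
length `L` is `m`-zero free if and only if `L < m q` and it is constant with value a unit.

(3) For all these `L` with `L < m q` there are exactly `φ(q)` such sequences.

(4) The bound on the length cannot be lowered to `m (q - 1) - 1`: for all `p`, `r`, `s` with
`m (q - 1) ≥ 3` there is a nonconstant `m`-zero free sequence of length `m (q - 1) - 1`. -/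
theorem result (p r s : ℕ) (hp : p.Prime) (hr : 1 ≤ r) :
    (∀ S : Multiset (ZMod (p ^ r)), S.card = p ^ s * p ^ r - 1 → ZeroFree (p ^ s) S →
      ∃ a : ZMod (p ^ r), IsUnit a ∧ AddSubgroup.zmultiples a = ⊤ ∧
        S = Multiset.replicate (p ^ s * p ^ r - 1) a) ∧
    (∀ S : Multiset (ZMod (p ^ r)), LongEnough p r s S.card →
      (ZeroFree (p ^ s) S ↔ S.card < p ^ s * p ^ r ∧
        ∃ a : ZMod (p ^ r), IsUnit a ∧ S = Multiset.replicate S.card a)) ∧
    (∀ L : ℕ, LongEnough p r s L → L < p ^ s * p ^ r →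
      {S : Multiset (ZMod (p ^ r)) | S.card = L ∧ ZeroFree (p ^ s) S}.ncard =
        Nat.totient (p ^ r)) ∧
    (3 ≤ p ^ s * (p ^ r - 1) → ∃ S : Multiset (ZMod (p ^ r)),
      S.card = p ^ s * (p ^ r - 1) - 1 ∧ ZeroFree (p ^ s) S ∧
        ¬ ∃ a, S = Multiset.replicate S.card a) := by
  refine ⟨fun S hS hz => ?_, fun S hS => Pool.Agent.KS6_47.Mzf.C.classify p r s hp hr S hS,
    fun L hL hL' => Pool.Agent.KS6_47.Mzf.C.count p r s L hp hr hL hL',
    fun h3 => Pool.Agent.KS6_47.Mzf.C.sharp p r s hp hr h3⟩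
  have hpr : 2 ≤ p ^ r := le_trans hp.two_le (Nat.le_self_pow (by omega) p)
  have hps : 0 < p ^ s := pow_pos hp.pos s
  have hmq : p ^ s * (p ^ r - 1) + p ^ s = p ^ s * p ^ r := by
    rw [← Nat.mul_succ]
    congr 1
    omega
  have hL : p ^ s * (p ^ r - 1) < S.card ∨ (p ^ s * (p ^ r - 1) = S.card ∧ (s = 0 ∨ p = 2)) := by
    rcases Nat.eq_zero_or_pos s with h0 | h0
    · subst h0
      right
      rw [pow_zero] at hmq hS ⊢
      exact ⟨by omega, Or.inl rfl⟩
    · left
      have : 2 ≤ p ^ s := le_trans hp.two_le (Nat.le_self_pow (by omega) p)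
      omega
  obtain ⟨-, a, ha, hSa⟩ := (Pool.Agent.KS6_47.Mzf.C.classify p r s hp hr S hL).1 hz
  have hne : NeZero (p ^ r) := ⟨by omega⟩
  refine ⟨a, ha, ?_, by rw [hS] at hSa; exact hSa⟩
  obtain ⟨u, rfl⟩ := ha
  rw [eq_top_iff]
  intro z _
  rw [AddSubgroup.mem_zmultiples_iff]
  refine ⟨((z * (↑u⁻¹ : ZMod (p ^ r))).val : ℤ), ?_⟩
  rw [zsmul_eq_mul, Int.cast_natCast, ZMod.natCast_val, ZMod.cast_id, mul_assoc, Units.inv_mul,
    mul_one]

end Pool.Agent.Results.MP_e23efd_co.LongZeroFree
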